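import Pool.Agent.HypVol.L_result_A

namespace Pool.Agent.Results.MP_2428c5_an.LayerVolume

open MeasureTheory

/-- One-dimensional dyadic block `⌊2^(s-1)⌋ ≤ |k| < 2^s` (note `⌊2^(s-1)⌋ = 2^s / 2` in `ℤ`). -/
def block (s : ℕ) : Set ℤ := {k | (2:ℤ)^s / 2 ≤ |k| ∧ |k| < (2:ℤ)^s}

open Classical in
/-- The hyperbolic layer `ΔQ_n`: all `k ∈ ℤ^d` lying in `ρ(s) = ∏ block (s j)` for some
`s ∈ ℕ^d` with `s_1 + ... + s_d = n` (all its points have `|k j| < 2^n`). -/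
noncomputable def layer (d n : ℕ) : Finset (Fin d → ℤ) :=
  (Fintype.piFinset (fun _ : Fin d => Finset.Ioo (-(2:ℤ)^n) ((2:ℤ)^n))).filter
    (fun k => ∃ s : Fin d → ℕ, ∑ j, s j = n ∧ ∀ j, k j ∈ block (s j))

/-- The polynomial `f(x) = ∑ f^(k) exp(i(k,x))` over `k ∈ ΔQ_n` with `Re f^(k) = a (k,0)` and
`Im f^(k) = a (k,1)`. -/
noncomputable def poly {d n : ℕ} (a : (layer d n) × Fin 2 → ℝ) (x : Fin d → ℝ) : ℂ :=
  ∑ k : layer d n, ((a (k, 0) : ℂ) + (a (k, 1) : ℂ) * Complex.I) *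
    Complex.exp (Complex.I * ((∑ j, (k.1 j : ℝ) * x j : ℝ) : ℂ))

/-- The body `B_{ΔQ_n}(L_∞)` of coefficient vectors of polynomials with sup norm at most 1. -/
def ball (d n : ℕ) : Set ((layer d n) × Fin 2 → ℝ) := {a | ∀ x : Fin d → ℝ, ‖poly a x‖ ≤ 1}

/-- For `d ≥ 3`, `vol(B_{ΔQ_n}(L_∞))^(1/N)`, `N = 2 |ΔQ_n|`, has exact order
`(2^n n^d)^(-1/2)`. -/
theorem result (d : ℕ) (hd : 3 ≤ d) : ∃ c C : ℝ, 0 < c ∧ 0 < C ∧ ∀ n : ℕ, 1 ≤ n →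
    c * (Real.sqrt (2^n * (n:ℝ)^d))⁻¹
      ≤ (volume (ball d n)).toReal ^ (1 / ((2 * (layer d n).card : ℕ) : ℝ)) ∧
    (volume (ball d n)).toReal ^ (1 / ((2 * (layer d n).card : ℕ) : ℝ))
      ≤ C * (Real.sqrt (2^n * (n:ℝ)^d))⁻¹ :=
  HypVol.ball_volume d hd

end Pool.Agent.Results.MP_2428c5_an.LayerVolume
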